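import Pool.Agent.H40.ISH.Stmts

set_option linter.unusedVariables false

namespace Pool.ISH

open MeasureTheory Filter Topology
open scoped Classical Pointwise

/-- the sign -/
noncomputable def sg (A : Finset Site) (x : Site) : ℤ := if x ∈ A then 1 else -1

theorem mg_eq_sg {N : ℕ} {A : Finset Site} (hA : A ⊆ Vb N) : mg N A = ∑ x ∈ Vb N, sg A x := by
  unfold mg sg
  rw [Finset.sum_ite]
  have h1 : (Vb N).filter (fun x => x ∈ A) = A := by
    ext x
    simp only [Finset.mem_filter]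
    exact ⟨fun h => h.2, fun h => ⟨hA h, h⟩⟩
  have h2 : (Vb N).card = ((Vb N).filter (fun x => x ∈ A)).card +
      ((Vb N).filter (fun x => ¬ x ∈ A)).card := (Finset.card_filter_add_card_filter_not _).symm
  rw [h2, h1]
  simp only [Finset.sum_const, nsmul_eq_mul, mul_one, mul_neg]
  push_cast
  ring

theorem sg_sum (A : Finset Site) (Q : Finset Site) : ∑ x ∈ Q, sg A x =
    ((Q.filter (fun x => x ∈ A)).card : ℤ) - ((Q.filter (fun x => ¬ x ∈ A)).card : ℤ) := by
  unfold sg
  rw [Finset.sum_ite]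
  simp only [Finset.sum_const, nsmul_eq_mul, mul_one, mul_neg]
  ring

theorem sg_abs (A : Finset Site) (x : Site) : |sg A x| = 1 := by
  unfold sg
  split_ifs <;> simp

theorem sg_diff (A A' : Finset Site) (x : Site) :
    |sg A x - sg A' x| ≤ 2 * (if x ∈ symmDiff A A' then 1 else 0) := by
  unfold sg
  simp only [Finset.mem_symmDiff]
  by_cases h1 : x ∈ A <;> by_cases h2 : x ∈ A' <;> simp [h1, h2]

/-- the sum over the tiles of the differences -/
theorem tiles_diff (A A' : Finset Site) (T : Finset Site) (l : ℕ)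
    (hdis : ∀ z ∈ T, ∀ z' ∈ T, z ≠ z' → Disjoint (cube z l) (cube z' l)) :
    ∑ z ∈ T, |∑ x ∈ cube z l, sg A' x| - 2 * ((symmDiff A A').card : ℤ) ≤
      ∑ z ∈ T, |∑ x ∈ cube z l, sg A x| := by
  have h1 : ∑ z ∈ T, |∑ x ∈ cube z l, sg A' x| ≤ ∑ z ∈ T, (|∑ x ∈ cube z l, sg A x| +
      2 * (((cube z l).filter (fun x => x ∈ symmDiff A A')).card : ℤ)) := by
    refine Finset.sum_le_sum fun z _ => ?_
    have h2 : |∑ x ∈ cube z l, sg A' x| ≤ |∑ x ∈ cube z l, sg A x| +
        |∑ x ∈ cube z l, sg A x - ∑ x ∈ cube z l, sg A' x| := by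
      have := abs_sub_abs_le_abs_sub (∑ x ∈ cube z l, sg A' x) (∑ x ∈ cube z l, sg A x)
      rw [abs_sub_comm] at this
      linarith
    refine h2.trans (add_le_add_right ?_ _)
    rw [← Finset.sum_sub_distrib]
    refine (Finset.abs_sum_le_sum_abs _ _).trans ?_
    refine (Finset.sum_le_sum fun x _ => sg_diff A A' x).trans ?_
    rw [← Finset.mul_sum, Finset.sum_boole]
  have h3 : ∑ z ∈ T, (((cube z l).filter (fun x => x ∈ symmDiff A A')).card : ℤ) ≤
      ((symmDiff A A').card : ℤ) := by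
    have h4 : (T.biUnion (fun z => (cube z l).filter (fun x => x ∈ symmDiff A A'))).card =
        ∑ z ∈ T, ((cube z l).filter (fun x => x ∈ symmDiff A A')).card := by
      refine Finset.card_biUnion ?_
      intro z hz z' hz' hne
      exact (hdis z hz z' hz' hne).mono (Finset.filter_subset _ _) (Finset.filter_subset _ _)
    have h5 : (T.biUnion (fun z => (cube z l).filter (fun x => x ∈ symmDiff A A'))).card ≤
        (symmDiff A A').card := by
      refine Finset.card_le_card ?_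
      intro x hx
      obtain ⟨z, _, hx⟩ := Finset.mem_biUnion.1 hx
      exact (Finset.mem_filter.1 hx).2
    rw [h4] at h5
    exact_mod_cast h5
  rw [Finset.sum_add_distrib, ← Finset.mul_sum] at h1
  linarith

/-- one tile -/
theorem tile_one (hB : BPIStmt) (N : ℕ) (A : Finset Site) (z : Site) (l : ℕ) (hl : 1 ≤ l)
    (hz : cube z l ⊆ Vb N) :
    (l : ℤ) ^ 3 - 2 * l * (((BC z l).filter (fun b => b ∈ bd (Pl N A))).card : ℤ) ≤
      |∑ x ∈ cube z l, sg A x| := by
  rw [sg_sum]
  have h1 := hB (Pl N A) z l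
  have e1 : (cube z l).filter (fun x => x ∈ Pl N A) = (cube z l).filter (fun x => x ∈ A) := by
    refine Finset.filter_congr fun x hx => ?_
    have := hz hx
    simp [Pl, this]
  have e2 : (cube z l).filter (fun x => x ∉ Pl N A) = (cube z l).filter (fun x => ¬ x ∈ A) := by
    refine Finset.filter_congr fun x hx => ?_
    have := hz hx
    simp [Pl, this]
  rw [e1, e2] at h1
  have h2 : ((cube z l).filter (fun x => x ∈ A)).card +
      ((cube z l).filter (fun x => ¬ x ∈ A)).card = l ^ 3 := by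
    rw [Finset.card_filter_add_card_filter_not, card_cube]
  set p := ((cube z l).filter (fun x => x ∈ A)).card
  set q := ((cube z l).filter (fun x => ¬ x ∈ A)).card
  set e := ((BC z l).filter (fun b => b ∈ bd (Pl N A))).card
  have hl3 : 0 < l ^ 3 := by positivity
  have key : ∀ u v : ℕ, u + v = l ^ 3 → 2 * u * v ≤ l ^ 4 * e → u ≤ v → u ≤ l * e := by
    intro u v huv h huv2
    have h3 : u * l ^ 3 ≤ (l * e) * l ^ 3 := by
      calc u * l ^ 3 = u * (u + v) := by rw [huv]
        _ ≤ u * (v + v) := Nat.mul_le_mul_left _ (by omega)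
        _ = 2 * u * v := by ring
        _ ≤ l ^ 4 * e := h
        _ = (l * e) * l ^ 3 := by ring
    exact Nat.le_of_mul_le_mul_right h3 hl3
  have h2' : (p : ℤ) + q = (l : ℤ) ^ 3 := by exact_mod_cast h2
  rcases le_total p q with h | h
  · have h3 := key p q h2 h1 h
    have h3' : (p : ℤ) ≤ l * e := by exact_mod_cast h3
    have := neg_abs_le ((p : ℤ) - q)
    linarith
  · have h3 := key q p (by omega) (by rw [mul_right_comm]; exact h1) h
    have h3' : (q : ℤ) ≤ l * e := by exact_mod_cast h3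
    have := le_abs_self ((p : ℤ) - q)
    linarith

/-- the bonds in the tiles -/
theorem tiles_en (N : ℕ) (A : Finset Site) (T : Finset Site) (l : ℕ)
    (hT : ∀ z ∈ T, cube z l ⊆ Vb N)
    (hdis : ∀ z ∈ T, ∀ z' ∈ T, z ≠ z' → Disjoint (cube z l) (cube z' l)) :
    ∑ z ∈ T, ((BC z l).filter (fun b => b ∈ bd (Pl N A))).card ≤ en N A := by
  have h4 : (T.biUnion (fun z => (BC z l).filter (fun b => b ∈ bd (Pl N A)))).card =
      ∑ z ∈ T, ((BC z l).filter (fun b => b ∈ bd (Pl N A))).card := by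
    refine Finset.card_biUnion ?_
    intro z hz z' hz' hne
    change Disjoint _ _
    rw [Finset.disjoint_left]
    intro b hb hb'
    have h1 := (mem_BC.1 (Finset.mem_filter.1 hb).1).1
    have h2 := (mem_BC.1 (Finset.mem_filter.1 hb').1).1
    exact (Finset.disjoint_left.1 (hdis z hz z' hz' hne)) h1 h2
  rw [← h4]
  unfold en
  refine Finset.card_le_card ?_
  intro b hb
  obtain ⟨z, hz, hb⟩ := Finset.mem_biUnion.1 hb
  rw [Finset.mem_filter] at hb ⊢
  exact ⟨mem_BV.2 (Or.inl (hT z hz (mem_BC.1 hb.1).1)), hb.2⟩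

/-- the flip -/
theorem tiles_flip (N : ℕ) (A : Finset Site) (hA : A ⊆ Vb N) (T : Finset Site) (l : ℕ)
    (hT : ∀ z ∈ T, cube z l ⊆ Vb N)
    (hdis : ∀ z ∈ T, ∀ z' ∈ T, z ≠ z' → Disjoint (cube z l) (cube z' l)) :
    ∃ U ⊆ T, ∑ z ∈ T, |∑ x ∈ cube z l, sg A x| - ((Vb N).card - (T.card : ℤ) * (l : ℤ) ^ 3) ≤
      mg N (symmDiff A (U.biUnion (fun z => cube z l))) := by
  set U := T.filter (fun z => ∑ x ∈ cube z l, sg A x < 0) with hU
  set F := U.biUnion (fun z => cube z l) with hF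
  have hUT : U ⊆ T := Finset.filter_subset _ _
  have hFV : F ⊆ Vb N := by
    intro x hx
    obtain ⟨z, hz, hx⟩ := Finset.mem_biUnion.1 hx
    exact hT z (hUT hz) hx
  refine ⟨U, hUT, ?_⟩
  rw [mg_eq_sg (symmDiff_subset_Vb hA hFV)]
  have hcov : T.biUnion (fun z => cube z l) ⊆ Vb N := by
    intro x hx
    obtain ⟨z, hz, hx⟩ := Finset.mem_biUnion.1 hx
    exact hT z hz hx
  rw [← Finset.sum_sdiff hcov]
  have hb : ∑ x ∈ T.biUnion (fun z => cube z l), sg (symmDiff A F) x =
      ∑ z ∈ T, |∑ x ∈ cube z l, sg A x| := by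
    rw [Finset.sum_biUnion]
    · refine Finset.sum_congr rfl fun z hz => ?_
      by_cases hzU : z ∈ U
      · have hneg := (Finset.mem_filter.1 hzU).2
        rw [abs_of_neg hneg, ← Finset.sum_neg_distrib]
        refine Finset.sum_congr rfl fun x hx => ?_
        have hxF : x ∈ F := Finset.mem_biUnion.2 ⟨z, hzU, hx⟩
        unfold sg
        simp only [Finset.mem_symmDiff]
        by_cases h : x ∈ A <;> simp [h, hxF]
      · have hpos : 0 ≤ ∑ x ∈ cube z l, sg A x := by
          by_contra h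
          exact hzU (Finset.mem_filter.2 ⟨hz, not_le.1 h⟩)
        rw [abs_of_nonneg hpos]
        refine Finset.sum_congr rfl fun x hx => ?_
        have hxF : x ∉ F := by
          intro hxF
          obtain ⟨z', hz', hx'⟩ := Finset.mem_biUnion.1 hxF
          have hne : z ≠ z' := by
            rintro rfl
            exact hzU hz'
          exact (Finset.disjoint_left.1 (hdis z hz z' (hUT hz') hne)) hx hx'
        unfold sg
        simp only [Finset.mem_symmDiff]
        by_cases h : x ∈ A <;> simp [h, hxF]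
    · intro z hz z' hz' hne
      exact hdis z hz z' hz' hne
  have hr : -(((Vb N) \ T.biUnion (fun z => cube z l)).card : ℤ) ≤
      ∑ x ∈ (Vb N) \ T.biUnion (fun z => cube z l), sg (symmDiff A F) x := by
    have h1 := Finset.abs_sum_le_sum_abs (fun x => sg (symmDiff A F) x)
      ((Vb N) \ T.biUnion (fun z => cube z l))
    simp only [sg_abs, Finset.sum_const, nsmul_eq_mul, mul_one] at h1
    have h2 := neg_abs_le (∑ x ∈ (Vb N) \ T.biUnion (fun z => cube z l), sg (symmDiff A F) x)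
    linarith
  have hc : (((Vb N) \ T.biUnion (fun z => cube z l)).card : ℤ) =
      (Vb N).card - (T.card : ℤ) * (l : ℤ) ^ 3 := by
    have h1 : (T.biUnion (fun z => cube z l)).card = T.card * l ^ 3 := by
      rw [Finset.card_biUnion]
      · simp [card_cube]
      · intro z hz z' hz' hne
        exact hdis z hz z' hz' hne
    have h2 := Finset.card_sdiff_add_card_eq_card hcov
    rw [h1] at h2
    have h3 : ((((Vb N) \ T.biUnion (fun z => cube z l)).card + T.card * l ^ 3 : ℕ) : ℤ) =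
        (Vb N).card := by exact_mod_cast h2
    push_cast at h3
    linarith
  rw [hb]
  linarith

/-- the boundary of a union of cubes -/
theorem bd_cubes (hS : SEGStmt) (U : Finset Site) (l : ℕ) :
    (bd ((U.biUnion (fun z => cube z l) : Finset Site) : Set Site)).ncard ≤ U.card * (6 * l ^ 2) := by
  have h1 : bd ((U.biUnion (fun z => cube z l) : Finset Site) : Set Site) ⊆
      ((U.biUnion (fun z => (bd_finite (cube z l)).toFinset) : Finset Bond) : Set Bond) := by
    intro b hb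
    rw [Finset.mem_coe, Finset.mem_biUnion]
    by_contra hcon
    push Not at hcon
    have h2 : ∀ z ∈ U, (lo b ∈ cube z l ↔ hi b ∈ cube z l) := by
      intro z hz
      have := hcon z hz
      rw [Set.Finite.mem_toFinset, mem_bd, not_not] at this
      simpa using this
    apply hb
    simp only [Finset.coe_biUnion, Set.mem_iUnion, Finset.mem_coe]
    constructor
    · rintro ⟨z, hz, h⟩
      exact ⟨z, hz, (h2 z hz).1 h⟩
    · rintro ⟨z, hz, h⟩
      exact ⟨z, hz, (h2 z hz).2 h⟩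
  have h3 := Set.ncard_le_ncard h1 (Finset.finite_toSet _)
  rw [Set.ncard_coe_finset] at h3
  refine h3.trans ?_
  refine Finset.card_biUnion_le_card_mul _ _ _ ?_
  intro z _
  have h4 := (hS z l).1 (l ^ 3)
  rw [(hS z l).2.2.1, Set.ncard_eq_toFinset_card _ (bd_finite (cube z l))] at h4
  exact h4

theorem mag (hE : ETAStmt) (hB : BPIStmt) (hTl : TILStmt) (hS : SEGStmt) : MAGStmt := by
  intro C hC
  obtain ⟨M, hM⟩ := exists_nat_ge (27 + C)
  have hM27 : (27 : ℝ) ≤ M := by linarith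
  have hM0 : 0 < M := by
    have : (0 : ℝ) < M := by linarith
    exact_mod_cast this
  refine ⟨(2 : ℝ) ^ (216 * M ^ 3) + 1296 * (M : ℝ) ^ 3, 1, by positivity, one_pos, M, ?_⟩
  intro N hN
  have hN1 : 1 ≤ N := le_trans hM0 hN
  set l := N / M with hl
  have hl1 : 1 ≤ l := (Nat.one_le_div_iff hM0).2 hN
  have hlN : l * M ≤ N := Nat.div_mul_le_self N M
  have hNl : N ≤ 2 * (l * M) := by
    have h1 : N < l * M + M := Nat.lt_div_mul_add (a := N) hM0
    have h2 : M ≤ l * M := Nat.le_mul_of_pos_left M hl1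
    omega
  obtain ⟨hdis, htl1, htl2⟩ := hTl N l hl1
  set T := tiles N l with hTdef
  have hTsub : ∀ z ∈ T, cube z l ⊆ Vb N := fun z hz => (Finset.mem_filter.1 hz).2.1
  have hTcard : T.card ≤ 216 * M ^ 3 := by
    have h1 : T.card * l ^ 3 ≤ (216 * M ^ 3) * l ^ 3 := by
      refine htl1.trans ?_
      calc (2 * N + 1) ^ 3 ≤ (6 * (l * M)) ^ 3 := Nat.pow_le_pow_left (by omega) 3
        _ = (216 * M ^ 3) * l ^ 3 := by ring
    exact Nat.le_of_mul_le_mul_right h1 (by positivity)
  refine ⟨T.powerset.image (fun U => U.biUnion (fun z => cube z l)), ?_, ?_, ?_⟩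
  · have h1 : (T.powerset.image (fun U => U.biUnion (fun z => cube z l))).card ≤
        2 ^ (216 * M ^ 3) := by
      refine Finset.card_image_le.trans ?_
      rw [Finset.card_powerset]
      exact Nat.pow_le_pow_right (by norm_num) hTcard
    have h2 : (((T.powerset.image (fun U => U.biUnion (fun z => cube z l))).card : ℕ) : ℝ) ≤
        (2 : ℝ) ^ (216 * M ^ 3) := by exact_mod_cast h1
    have : (0 : ℝ) ≤ 1296 * (M : ℝ) ^ 3 := by positivity
    linarith
  · intro F hF
    obtain ⟨U, hU, rfl⟩ := Finset.mem_image.1 hF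
    rw [Finset.mem_powerset] at hU
    refine ⟨?_, ?_⟩
    · intro x hx
      obtain ⟨z, hz, hx⟩ := Finset.mem_biUnion.1 hx
      exact hTsub z (hU hz) hx
    · have h1 := bd_cubes hS U l
      have h2 : U.card * (6 * l ^ 2) ≤ (1296 * M ^ 3) * N ^ 2 := by
        have h3 : l ≤ N := Nat.div_le_self N M
        calc U.card * (6 * l ^ 2) ≤ (216 * M ^ 3) * (6 * N ^ 2) :=
              Nat.mul_le_mul ((Finset.card_le_card hU).trans hTcard)
                (Nat.mul_le_mul_left _ (Nat.pow_le_pow_left h3 2))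
          _ = (1296 * M ^ 3) * N ^ 2 := by ring
      have h4 : ((bd ((U.biUnion (fun z => cube z l) : Finset Site) : Set Site)).ncard : ℝ) ≤
          (1296 * (M : ℝ) ^ 3) * (N : ℝ) ^ 2 := by exact_mod_cast h1.trans h2
      refine h4.trans ?_
      have h5 : (0 : ℝ) ≤ 2 ^ (216 * M ^ 3) * (N : ℝ) ^ 2 := by positivity
      nlinarith
  · intro A hA hlg hsm
    obtain ⟨A', hA', hsd, hen⟩ := hE N A hA
    obtain ⟨U, hU, hmg⟩ := tiles_flip N A hA T l hTsub hdis
    refine ⟨U.biUnion (fun z => cube z l),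
      Finset.mem_image.2 ⟨U, Finset.mem_powerset.2 hU, rfl⟩, ?_⟩
    have h1 := tiles_diff A A' T l hdis
    have h2 : ∑ z ∈ T, ((l : ℤ) ^ 3 -
        2 * l * (((BC z l).filter (fun b => b ∈ bd (Pl N A'))).card : ℤ)) ≤
        ∑ z ∈ T, |∑ x ∈ cube z l, sg A' x| :=
      Finset.sum_le_sum fun z hz => tile_one hB N A' z l hl1 (hTsub z hz)
    rw [Finset.sum_sub_distrib, ← Finset.mul_sum] at h2
    simp only [Finset.sum_const, nsmul_eq_mul] at h2
    have h3 := tiles_en N A' T l hTsub hdis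
    rw [hen] at h3
    have h3' : (∑ z ∈ T, (((BC z l).filter (fun b => b ∈ bd (Pl N A'))).card : ℤ)) ≤ lg N A := by
      exact_mod_cast h3
    have h4 : (((symmDiff A A').card : ℕ) : ℤ) ≤ sm N A := by exact_mod_cast hsd
    rw [card_Vb] at hmg
    -- everything in the reals
    set X := ∑ z ∈ T, |∑ x ∈ cube z l, sg A' x|
    set Y := ∑ z ∈ T, |∑ x ∈ cube z l, sg A x|
    set E := ∑ z ∈ T, (((BC z l).filter (fun b => b ∈ bd (Pl N A'))).card : ℤ)
    set W := mg N (symmDiff A (U.biUnion (fun z => cube z l)))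
    have hnr : (1 : ℝ) ≤ N := by exact_mod_cast hN1
    have r1 : (X : ℝ) - 2 * (sm N A : ℝ) ≤ Y := by
      have : X - 2 * (sm N A : ℤ) ≤ Y := by linarith
      exact_mod_cast this
    have r2 : (T.card : ℝ) * (l : ℝ) ^ 3 - 2 * l * (lg N A : ℝ) ≤ X := by
      have : (T.card : ℤ) * (l : ℤ) ^ 3 - 2 * l * (lg N A : ℤ) ≤ X := by
        have h5 : 2 * (l : ℤ) * E ≤ 2 * l * (lg N A : ℤ) :=
          mul_le_mul_of_nonneg_left h3' (by positivity)
        linarith
      exact_mod_cast this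
    have r3 : (Y : ℝ) - ((2 * N + 1) ^ 3 - (T.card : ℝ) * (l : ℝ) ^ 3) ≤ W := by
      have : Y - (((2 * N + 1) ^ 3 : ℕ) - (T.card : ℤ) * (l : ℤ) ^ 3) ≤ W := hmg
      have h6 : ((Y - (((2 * N + 1) ^ 3 : ℕ) - (T.card : ℤ) * (l : ℤ) ^ 3) : ℤ) : ℝ) ≤ W := by
        exact_mod_cast this
      push_cast at h6
      exact h6
    have r4 : ((2 * N + 1 : ℝ)) ^ 3 ≤ (T.card : ℝ) * (l : ℝ) ^ 3 + 6 * l * (2 * N + 1) ^ 2 := by
      exact_mod_cast htl2
    have r5 : (l : ℝ) * M ≤ N := by exact_mod_cast hlN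
    have r6 : (0 : ℝ) ≤ l := by positivity
    have r7 : (2 * N + 1 : ℝ) ^ 2 ≤ 9 * (N : ℝ) ^ 2 := by nlinarith
    have r8 : (8 : ℝ) * (N : ℝ) ^ 3 ≤ (2 * N + 1 : ℝ) ^ 3 := by
      have : (2 * N : ℝ) ^ 3 ≤ (2 * N + 1 : ℝ) ^ 3 := pow_le_pow_left₀ (by positivity) (by linarith) 3
      calc (8 : ℝ) * (N : ℝ) ^ 3 = (2 * N : ℝ) ^ 3 := by ring
        _ ≤ _ := this
    have r9 : (l : ℝ) * (lg N A : ℝ) ≤ l * (C * (N : ℝ) ^ 2) := mul_le_mul_of_nonneg_left hlg r6
    have r10 : (l : ℝ) * (27 + C) ≤ N := (mul_le_mul_of_nonneg_left hM r6).trans r5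
    have r11 : (l : ℝ) * (27 + C) * (N : ℝ) ^ 2 ≤ (N : ℝ) ^ 3 := by
      calc (l : ℝ) * (27 + C) * (N : ℝ) ^ 2 ≤ N * (N : ℝ) ^ 2 :=
            mul_le_mul_of_nonneg_right r10 (by positivity)
        _ = _ := by ring
    have r12 : 6 * (l : ℝ) * (2 * N + 1 : ℝ) ^ 2 ≤ 54 * l * (N : ℝ) ^ 2 := by
      have := mul_le_mul_of_nonneg_left r7 (show (0 : ℝ) ≤ 6 * l by positivity)
      linarith
    have r13 : (0 : ℝ) ≤ l * C * (N : ℝ) ^ 2 := by positivity
    have hfin : (2 : ℝ) * (N : ℝ) ^ 3 ≤ W := by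
      nlinarith
    exact_mod_cast hfin

end Pool.ISH
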