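import Pool.Agent.H40.ISH.Stmts

set_option linter.unusedVariables false

namespace Pool.ISH

open MeasureTheory Filter Topology
open scoped Classical Pointwise

theorem smc_fill (hK : KOMStmt) (hI : INTStmt) (hQ : SQEStmt) (N : ℕ) (A : Finset Site)
    (S : Finset (Finset Bond)) (hS : S ⊆ Ks N A) :
    ∃ F : Finset Site, F ⊆ Vb N ∧ bd (F : Set Site) = ((S.biUnion id : Finset Bond) : Set Bond) := by
  obtain ⟨h1, h2, h3⟩ := hK N A
  induction S using Finset.induction_on with
  | empty => exact ⟨∅, by simp, by simp [bd_empty]⟩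
  | @insert γ S hγ ih =>
    obtain ⟨F, hF, hF2⟩ := ih ((Finset.subset_insert _ _).trans hS)
    have hγK : γ ∈ Ks N A := hS (Finset.mem_insert_self _ _)
    obtain ⟨g1, g2, g3, g4, g5, g6⟩ := h1 γ hγK
    have hsq : SqEven (γ : Set Bond) := hQ (Pl N A) _ g3 (fun b hb c hc hbc => g5 b hb c hc hbc)
    obtain ⟨G, hG, hG2, -⟩ := hI N γ g1 hsq g6
    refine ⟨symmDiff G F, symmDiff_subset_Vb hG hF, ?_⟩
    have hdis : Disjoint (γ : Set Bond) ((S.biUnion id : Finset Bond) : Set Bond) := by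
      rw [Finset.disjoint_coe, Finset.disjoint_biUnion_right]
      intro γ' hγ'
      refine h2 γ hγK γ' (hS (Finset.mem_insert_of_mem hγ')) ?_
      rintro rfl
      exact hγ hγ'
    rw [Finset.coe_symmDiff, bd_symmDiff, hG2, hF2, hdis.symmDiff_eq_sup, Finset.biUnion_insert,
      Finset.coe_union]
    rfl

/-- removing a family of contours -/
theorem smc_remove (hK : KOMStmt) (N : ℕ) (A : Finset Site) (S : Finset (Finset Bond))
    (hS : S ⊆ Ks N A) (F : Finset Site) (hF : F ⊆ Vb N)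
    (hbd : bd (F : Set Site) = ((S.biUnion id : Finset Bond) : Set Bond)) :
    en N (symmDiff A F) + ∑ γ ∈ S, γ.card = en N A := by
  obtain ⟨h1, h2, h3⟩ := hK N A
  have h := en_flip (A := A) hF
  have e1 : ((BV N).filter (fun b => b ∈ bd (F : Set Site) ∧ b ∈ bd (Pl N A))) = S.biUnion id := by
    ext b
    simp only [Finset.mem_filter, hbd, Finset.mem_coe]
    constructor
    · exact fun h => h.2.1
    · intro hb
      refine ⟨?_, hb, ?_⟩
      · obtain ⟨γ, hγ, hb⟩ := Finset.mem_biUnion.1 hb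
        exact (h1 γ (hS hγ)).1 hb
      · obtain ⟨γ, hγ, hb⟩ := Finset.mem_biUnion.1 hb
        exact (h1 γ (hS hγ)).2.2.1 hb
  have e2 : ((BV N).filter (fun b => b ∈ bd (F : Set Site) ∧ b ∉ bd (Pl N A))) = ∅ := by
    rw [Finset.filter_eq_empty_iff]
    rintro b - ⟨hb, hb2⟩
    apply hb2
    rw [hbd, Finset.mem_coe] at hb
    obtain ⟨γ, hγ, hb⟩ := Finset.mem_biUnion.1 hb
    exact (h1 γ (hS hγ)).2.2.1 hb
  rw [e1, e2, Finset.card_empty, add_zero, Finset.card_biUnion] at h
  · simpa using h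
  · intro γ hγ γ' hγ' hne
    exact h2 γ (hS hγ) γ' (hS hγ') hne

theorem smc (hK : KOMStmt) (hI : INTStmt) (hQ : SQEStmt) : SMCStmt := by
  intro β N a ha
  set K : Finset (Finset Bond) := ((BV N).powerset).filter (fun γ : Finset Bond =>
    γ.Nonempty ∧ γ.card < Lg N ∧ ∀ b ∈ γ, ∀ c ∈ γ, Rch (γ : Set Bond) b c) with hKdef
  set sk : Finset Site → Finset (Finset Bond) :=
    fun A => (Ks N A).filter (fun γ => γ.card < Lg N) with hsk
  have hskK : ∀ A, sk A ⊆ K := by
    intro A γ hγ
    rw [hsk, Finset.mem_filter] at hγ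
    obtain ⟨g1, g2, g3, g4, g5, g6⟩ := (hK N A).1 γ hγ.1
    rw [hKdef, Finset.mem_filter, Finset.mem_powerset]
    exact ⟨g1, g2, hγ.2, g6⟩
  -- expansion
  have e1 : ∑ A ∈ (Vb N).powerset, wt β N A * ∏ γ ∈ sk A, (1 + a γ.card) =
      ∑ S ∈ K.powerset, ∑ A ∈ (Vb N).powerset.filter (fun A => S ⊆ sk A),
        wt β N A * ∏ γ ∈ S, a γ.card := by
    have : ∀ A ∈ (Vb N).powerset, wt β N A * ∏ γ ∈ sk A, (1 + a γ.card) =
        ∑ S ∈ K.powerset, if S ⊆ sk A then wt β N A * ∏ γ ∈ S, a γ.card else 0 := by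
      intro A _
      rw [Finset.prod_one_add, ← Finset.sum_filter]
      have e : K.powerset.filter (fun S => S ⊆ sk A) = (sk A).powerset := by
        ext S
        simp only [Finset.mem_filter, Finset.mem_powerset]
        exact ⟨fun h => h.2, fun h => ⟨h.trans (hskK A), h⟩⟩
      rw [e, Finset.mul_sum]
    rw [Finset.sum_congr rfl this, Finset.sum_comm]
    refine Finset.sum_congr rfl ?_
    intro S _
    rw [Finset.sum_filter]
  rw [e1]
  -- the bound for a fixed S
  have e2 : ∀ S ∈ K.powerset, ∑ A ∈ (Vb N).powerset.filter (fun A => S ⊆ sk A),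
        wt β N A * ∏ γ ∈ S, a γ.card ≤
      ZZ β N (Vb N).powerset * ∏ γ ∈ S, (a γ.card * Real.exp (- (2 * β * γ.card))) := by
    intro S hS
    have hZ : 0 ≤ ZZ β N (Vb N).powerset := Finset.sum_nonneg fun A _ => (wt_pos β N A).le
    have hP : 0 ≤ ∏ γ ∈ S, a γ.card := Finset.prod_nonneg fun γ _ => ha _
    by_cases hne : ((Vb N).powerset.filter (fun A => S ⊆ sk A)).Nonempty
    · obtain ⟨A₀, hA₀⟩ := hne
      rw [Finset.mem_filter] at hA₀
      have hsub : ∀ A, S ⊆ sk A → S ⊆ Ks N A := fun A h => h.trans (Finset.filter_subset _ _)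
      obtain ⟨F, hF, hbd⟩ := smc_fill hK hI hQ N A₀ S (hsub _ hA₀.2)
      have hw : ∀ A, S ⊆ sk A → wt β N A = wt β N (symmDiff A F) *
          Real.exp (- (2 * β * ((∑ γ ∈ S, γ.card : ℕ) : ℝ))) := by
        intro A hA
        have := smc_remove hK N A S (hsub _ hA) F hF hbd
        unfold wt
        rw [← Real.exp_add, ← this]
        congr 1
        push_cast
        ring
      have hprod : ∏ γ ∈ S, (a γ.card * Real.exp (- (2 * β * γ.card))) =
          (∏ γ ∈ S, a γ.card) * Real.exp (- (2 * β * ((∑ γ ∈ S, γ.card : ℕ) : ℝ))) := by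
        rw [Finset.prod_mul_distrib, ← Real.exp_sum]
        congr 2
        push_cast
        rw [Finset.sum_neg_distrib, Finset.mul_sum]
      rw [hprod, ← Finset.sum_mul]
      have h3 : ∑ A ∈ (Vb N).powerset.filter (fun A => S ⊆ sk A), wt β N A ≤
          ZZ β N (Vb N).powerset * Real.exp (- (2 * β * ((∑ γ ∈ S, γ.card : ℕ) : ℝ))) := by
        have h4 : ∑ A ∈ (Vb N).powerset.filter (fun A => S ⊆ sk A), wt β N A =
            ∑ A ∈ (Vb N).powerset.filter (fun A => S ⊆ sk A), wt β N (symmDiff A F) *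
              Real.exp (- (2 * β * ((∑ γ ∈ S, γ.card : ℕ) : ℝ))) :=
          Finset.sum_congr rfl fun A hA => hw A (Finset.mem_filter.1 hA).2
        rw [h4, ← Finset.sum_mul]
        refine mul_le_mul_of_nonneg_right ?_ (Real.exp_pos _).le
        have hinj : Set.InjOn (fun A : Finset Site => symmDiff A F)
            ((Vb N).powerset.filter (fun A => S ⊆ sk A) : Finset (Finset Site)) := by
          intro A _ B _ h
          exact symmDiff_left_injective F h
        rw [← Finset.sum_image (f := fun A => wt β N A) hinj]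
        refine Finset.sum_le_sum_of_subset_of_nonneg ?_ (fun A _ _ => (wt_pos β N A).le)
        intro B hB
        obtain ⟨A, hA, rfl⟩ := Finset.mem_image.1 hB
        rw [Finset.mem_powerset]
        exact symmDiff_subset_Vb (Finset.mem_powerset.1 (Finset.mem_filter.1 hA).1) hF
      calc _ ≤ (ZZ β N (Vb N).powerset * Real.exp (- (2 * β * ((∑ γ ∈ S, γ.card : ℕ) : ℝ)))) *
            ∏ γ ∈ S, a γ.card := mul_le_mul_of_nonneg_right h3 hP
        _ = _ := by ring
    · rw [Finset.not_nonempty_iff_eq_empty] at hne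
      rw [hne, Finset.sum_empty]
      refine mul_nonneg hZ (Finset.prod_nonneg fun γ _ => mul_nonneg (ha _) (Real.exp_pos _).le)
  refine (Finset.sum_le_sum e2).trans ?_
  rw [← Finset.mul_sum, ← Finset.prod_one_add]
  refine mul_le_mul_of_nonneg_left ?_ (Finset.sum_nonneg fun A _ => (wt_pos β N A).le)
  rw [Real.exp_sum]
  refine Finset.prod_le_prod (fun γ _ => ?_) (fun γ _ => ?_)
  · have := mul_nonneg (ha γ.card) (Real.exp_pos (- (2 * β * γ.card))).le
    linarith
  · rw [add_comm]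
    exact Real.add_one_le_exp _

end Pool.ISH
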